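import Pool.Agent.Y910.R.R3

/-!
The uniform bound.
-/

open Polynomial Filter

set_option autoImplicit false

namespace Pool.Agent.Y910.R

open Pool.Agent.Y910.G

lemma exists_enum (g : ℤ[X]) (hg : (g.map (Int.castRingHom ℚ)).Separable) (d : ℕ)
    (hd : g.natDegree = d) : ∃ θ : Fin d → ℂ, Function.Injective θ ∧ (∀ i, aeval (θ i) g = 0) ∧
      ∀ F : ℂ → ℂ, ∑ i, F (θ i) =
        ∑ r ∈ ((g.map (Int.castRingHom ℚ)).map (algebraMap ℚ ℂ)).roots.toFinset, F r := by
  classical
  obtain ⟨s, hs⟩ : ∃ s, s = ((g.map (Int.castRingHom ℚ)).map (algebraMap ℚ ℂ)).roots.toFinset :=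
    ⟨_, rfl⟩
  have hdeg : ((g.map (Int.castRingHom ℚ)).map (algebraMap ℚ ℂ)).natDegree = d := by
    rw [natDegree_map, natDegree_map_eq_of_injective (RingHom.injective_int _), hd]
  have hcard : s.card = d := by
    rw [hs, Multiset.toFinset_card_of_nodup (nodup_roots hg.map), ← hdeg]
    exact (splits_iff_card_roots.1 (IsAlgClosed.splits _))
  have hmem : ∀ r ∈ s, aeval r g = 0 := by
    intro r hr
    rw [hs, Multiset.mem_toFinset] at hr
    have h3 := (mem_roots'.1 hr).2
    rw [IsRoot.def, Polynomial.map_map, eval_map] at h3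
    rw [aeval_def, ← h3]
    congr 1
  let e := s.equivFinOfCardEq hcard
  refine ⟨fun i => (e.symm i).1, fun i j h => e.symm.injective (Subtype.ext h),
    fun i => hmem _ (e.symm i).2, fun F => ?_⟩
  · rw [← hs, ← Finset.sum_coe_sort s F]
    exact Equiv.sum_comp e.symm (fun r : s => F r.1)

theorem unif (d : ℕ) (hd : 2 ≤ d) : ∃ M : ℕ, ∀ (H : ℕ) (g : ℤ[X]), g.natDegree = d →
    (g.map (Int.castRingHom ℚ)).Separable → (∀ i, |g.coeff i| ≤ H) →
    ∀ b : ℤ, b ≠ 0 → |b| ≤ H → ∀ x : ℤ,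
    (∃ B : ℚ[X], g.map (Int.castRingHom ℚ) ∣ B ^ 2 - C (b : ℚ) * (C (x : ℚ) - X)) →
    |x| ≤ (2 * H : ℤ) ^ M := by
  by_contra hcon
  push Not at hcon
  choose H g hdeg hsep hcoef b hb0 hbH x hB hx using hcon
  choose B hB using hB
  have hH1 : ∀ n, 1 ≤ H n := by
    intro n
    have h1 := Int.one_le_abs (hb0 n)
    have h2 := hbH n
    have : (1 : ℤ) ≤ H n := h1.trans h2
    exact_mod_cast this
  let S : Sca := ⟨fun n => 2 * H n, fun n => by have := hH1 n; omega⟩
  have hHT : ∀ n, (H n : ℤ) ≤ (S.T n : ℤ) ^ 1 := by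
    intro n
    rw [pow_one]
    change (H n : ℤ) ≤ ((2 * H n : ℕ) : ℤ)
    push_cast
    have := hH1 n
    omega
  have hkint : ∀ f : ℕ → ℤ, (∀ n, |f n| ≤ H n) → qc (fun n => (f n : ℚ)) ∈ k0 S := by
    intro f hf
    refine ⟨_, ⟨1, fun n => ?_⟩, rfl⟩
    apply Ht.int (S.one_le n 1)
    push_cast
    exact (hf n).trans (hHT n)
  choose θ hθi hθ0 hθs using fun n => exists_enum (g n) (hsep n) d (hdeg n)
  have hlc : ∀ n, (g n).leadingCoeff ≠ 0 := by
    intro n h
    rw [leadingCoeff_eq_zero] at h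
    have := hdeg n
    rw [h, natDegree_zero] at this
    omega
  have hnt : Nontrivial (Fin d) := Fin.nontrivial_iff_two_le.2 hd
  have hsq : ∀ n, ∃ s : ℂ, s ^ 2 = (b n : ℂ) * x n := fun n =>
    IsAlgClosed.exists_pow_nat_eq _ (by norm_num)
  choose s hs using hsq
  refine core (VV S) (k0 S) (ι := Fin d) (fun z hz => k0_le S hz) (R0 S)
    (fun z hz => k0_le_R0 S hz) (fun z hz hz' => R0_V S hz hz')
    (x := qc (fun n => (x n : ℚ))) (s := cc s) (b := qc (fun n => (b n : ℚ)))
    (hkint b hbH) ?_ ?_ ?_ ?_ (fun i => cc (fun n => θ n i))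
    (fun i => cc (fun n => ((B n).map (algebraMap ℚ ℂ)).eval (θ n i))) ?_ ?_ ?_ ?_
  · rw [qc_apply]
    intro h
    rw [cc_eq_zero] at h
    obtain ⟨n, hn⟩ := h.exists
    exact hb0 n (by exact_mod_cast hn)
  · refine ⟨x, 1, fun n => one_ne_zero, ⟨0, fun n => by simp⟩, ?_⟩
    congr 1
    ext n
    simp
  · rintro ⟨f, hf, m, hm⟩
    rw [qc_apply, cc_eq] at hf
    obtain ⟨n, hn1, hn2⟩ := (hf.and (ev_ge m)).exists
    have h1 := hm n
    rw [hn1] at h1
    push_cast at h1
    rw [Complex.norm_intCast] at h1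
    have h2 : (|x n| : ℤ) ≤ (S.T n : ℤ) ^ m := by exact_mod_cast h1
    have h3 : (S.T n : ℤ) ^ m ≤ (S.T n : ℤ) ^ n := by
      apply pow_le_pow_right₀ _ hn2
      have := S.hT n
      omega
    have h4 := hx n
    change |x n| ≤ ((2 * H n : ℕ) : ℤ) ^ m at h2
    change ((2 * H n : ℕ) : ℤ) ^ m ≤ ((2 * H n : ℕ) : ℤ) ^ n at h3
    push_cast at h2 h3
    exact absurd (h2.trans h3) (not_le.2 h4)
  · rw [qc_apply, qc_apply, ← map_pow, ← map_mul]
    congr 1
    ext n
    simp only [Pi.pow_apply, Pi.mul_apply]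
    rw [hs n]
    push_cast
    rfl
  · intro i j hij
    rw [cc_eq] at hij
    obtain ⟨n, hn⟩ := hij.exists
    exact hθi n hn
  · intro i
    rw [mem_algebraicClosure_iff']
    apply IsAlgebraic.isIntegral
    have hc : ∀ l, qc (fun n => (((g n).coeff l : ℤ) : ℚ)) ∈ k0 S := fun l =>
      hkint _ fun n => hcoef n l
    refine ⟨∑ l ∈ Finset.range (d + 1), C (⟨_, hc l⟩ : k0 S) * X ^ l, ?_, ?_⟩
    · intro h
      have h1 := congrArg (fun P => coeff P d) h
      simp only [finsetSum_coeff, coeff_C_mul_X_pow, coeff_zero] at h1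
      rw [Finset.sum_eq_single d] at h1
      · rw [if_pos rfl] at h1
        have h2 := congrArg (fun z : k0 S => (z : Oc)) h1
        change qc (fun n => (((g n).coeff d : ℤ) : ℚ)) = 0 at h2
        rw [qc_apply, cc_eq_zero] at h2
        obtain ⟨n, hn⟩ := h2.exists
        have h3 : (g n).coeff d = 0 := by exact_mod_cast hn
        rw [← hdeg n] at h3
        exact hlc n h3
      · intro l _ hl
        rw [if_neg (Ne.symm hl)]
      · intro hl
        exact absurd (Finset.mem_range.2 (Nat.lt_succ_self d)) hl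
    · rw [map_sum]
      simp only [map_mul, aeval_C, map_pow, aeval_X]
      change ∑ l ∈ Finset.range (d + 1), qc (fun n => (((g n).coeff l : ℤ) : ℚ)) *
        cc (fun n => θ n i) ^ l = 0
      simp only [qc_apply, ← map_pow, ← map_mul, ← map_sum]
      rw [cc_eq_zero]
      refine Ev.of_forall fun n => ?_
      have h1 := hθ0 n i
      rw [aeval_def, eval₂_eq_sum_range, hdeg n] at h1
      rw [← h1, Finset.sum_apply]
      refine Finset.sum_congr rfl fun l _ => ?_
      simp
  · intro i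
    rw [qc_apply, qc_apply, ← map_pow, ← map_sub, ← map_mul]
    congr 1
    ext n
    simp only [Pi.pow_apply, Pi.mul_apply, Pi.sub_apply]
    obtain ⟨Q, hQ⟩ := hB n
    have h3 := congrArg (fun P => (P.map (algebraMap ℚ ℂ)).eval (θ n i)) hQ
    simp only [Polynomial.map_sub, Polynomial.map_pow, Polynomial.map_mul, Polynomial.map_C,
      Polynomial.map_X, eval_sub, eval_pow, eval_mul, eval_C, eval_X] at h3
    have h4 : eval (θ n i) (((g n).map (Int.castRingHom ℚ)).map (algebraMap ℚ ℂ)) = 0 := by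
      have h5 := hθ0 n i
      rw [aeval_def] at h5
      rw [Polynomial.map_map, eval_map, ← h5]
      congr 1
    rw [h4, zero_mul, sub_eq_zero] at h3
    rw [h3]
    simp
  · intro j
    choose z hz using fun n => trace_int (g n) (hsep n) (b n) (x n) (B n) (hB n) j
    refine ⟨z, fun n => (g n).leadingCoeff ^ (j + 1), fun n => pow_ne_zero _ (hlc n),
      ⟨j + 1, fun n => ?_⟩, ?_⟩
    · rw [abs_pow]
      apply pow_le_pow_left₀ (abs_nonneg _)
      have h1 := (hcoef n (g n).natDegree).trans (hHT n)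
      rw [pow_one] at h1
      exact h1
    · rw [qc_apply]
      simp only [← map_pow, ← map_mul, ← map_sum]
      congr 1
      ext n
      rw [Finset.sum_apply]
      simp only [Pi.pow_apply, Pi.mul_apply]
      have h1 := hθs n (fun r => r ^ j * ((B n).map (algebraMap ℚ ℂ)).eval r)
      rw [h1]
      have h2 := hz n
      have h3 : ((g n).leadingCoeff : ℂ) ^ (j + 1) ≠ 0 := by
        apply pow_ne_zero
        exact_mod_cast hlc n
      push_cast
      rw [← h2]
      field_simp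

end Pool.Agent.Y910.R
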