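import Mathlib

/-!
The algebraic core: sums of square roots at a place.
-/

open Polynomial

set_option autoImplicit false

namespace Pool.Agent.Y910.R

section core

variable {Ω : Type*} [Field Ω] (V : ValuationSubring Ω) (k : Subfield Ω)

lemma alg_mem (hk : ∀ z ∈ k, z ∈ V) {z : Ω} (hz : z ∈ algebraicClosure k Ω) : z ∈ V := by
  have h1 : IsIntegral k z := mem_algebraicClosure_iff'.1 hz
  obtain ⟨p, hp, hp0⟩ := h1
  let φ : k →+* V := k.subtype.codRestrict V.toSubring (fun z => hk _ z.2)
  have h2 : IsIntegral V z := by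
    refine ⟨p.map φ, hp.map φ, ?_⟩
    rw [eval₂_map]
    exact hp0
  obtain ⟨y, hy⟩ := IsIntegrallyClosed.isIntegral_iff.1 h2
  rw [← hy]
  exact y.2

lemma alg_zero (hk : ∀ z ∈ k, z ∈ V) {z : Ω} (hz : z ∈ algebraicClosure k Ω)
    (hm : V.valuation z < 1) : z = 0 := by
  by_contra h0
  have h1 : z⁻¹ ∈ V := alg_mem V k hk (inv_mem hz)
  have h2 := (V.valuation_le_one_iff _).2 h1
  rw [map_inv₀] at h2
  have h3 : V.valuation z ≠ 0 := (Valuation.ne_zero_iff _).2 h0
  have h4 : (1 : V.ValueGroup) ≤ V.valuation z := by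
    rwa [inv_le_one₀ (zero_lt_iff.2 h3)] at h2
  exact absurd hm (not_lt.2 h4)

lemma m_add {z w : Ω} (hz : V.valuation z < 1) (hw : V.valuation w < 1) :
    V.valuation (z + w) < 1 := Valuation.map_add_lt _ hz hw

lemma m_neg {z : Ω} (hz : V.valuation z < 1) : V.valuation (-z) < 1 := by
  rwa [Valuation.map_neg]

lemma m_sub {z w : Ω} (hz : V.valuation z < 1) (hw : V.valuation w < 1) :
    V.valuation (z - w) < 1 := by
  rw [sub_eq_add_neg]
  exact m_add V hz (m_neg V hw)

lemma m_mul {z w : Ω} (hz : V.valuation z < 1) (hw : w ∈ V) : V.valuation (z * w) < 1 := by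
  rw [map_mul]
  have h := (V.valuation_le_one_iff _).2 hw
  calc V.valuation z * V.valuation w ≤ V.valuation z * 1 := by gcongr
    _ = V.valuation z := mul_one _
    _ < 1 := hz

lemma m_mem {z : Ω} (hz : V.valuation z < 1) : z ∈ V := (V.valuation_le_one_iff _).1 hz.le

lemma m_sum {ι : Type*} (s : Finset ι) (f : ι → Ω) (h : ∀ i ∈ s, V.valuation (f i) < 1) :
    V.valuation (∑ i ∈ s, f i) < 1 := by
  classical
  induction s using Finset.induction_on with
  | empty => simp
  | insert a s ha ih =>
    rw [Finset.sum_insert ha]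
    exact m_add V (h a (Finset.mem_insert_self _ _))
      (ih fun i hi => h i (Finset.mem_insert_of_mem hi))

/-- one square root -/
lemma one_root [CharZero Ω] (hk : ∀ z ∈ k, z ∈ V) {x s b θ β : Ω} (hb : b ∈ k) (hb0 : b ≠ 0)
    (hx : x ∉ V) (hs : s ^ 2 = b * x) (hθ : θ ∈ algebraicClosure k Ω)
    (hβ : β ^ 2 = b * (x - θ)) :
    ∃ ε : ℤ, (ε = 1 ∨ ε = -1) ∧ ∃ μ : Ω, V.valuation μ < 1 ∧
      x * (β / s) = x * ε - ε * θ / 2 + μ := by
  have hx0 : x ≠ 0 := fun h => hx (h ▸ V.zero_mem)
  have hs0 : s ≠ 0 := by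
    rintro rfl
    rw [zero_pow two_ne_zero] at hs
    exact mul_ne_zero hb0 hx0 hs.symm
  have hxm : V.valuation x⁻¹ < 1 := by
    rw [map_inv₀]
    have h1 : 1 < V.valuation x := by
      rw [← not_le]
      exact fun h => hx ((V.valuation_le_one_iff _).1 h)
    exact inv_lt_one_of_one_lt₀ h1
  have hθV := alg_mem V k hk hθ
  have h1 : (β / s - 1) * (β / s + 1) = -(x⁻¹ * θ) := by
    field_simp
    rw [mul_sub] at hβ
    linear_combination x * hβ - (x - θ) * hs
  have h2 : V.valuation ((β / s - 1) * (β / s + 1)) < 1 := by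
    rw [h1]
    exact m_neg V (m_mul V hxm hθV)
  have h3 : V.valuation (β / s - 1) < 1 ∨ V.valuation (β / s + 1) < 1 := by
    by_contra hc
    push Not at hc
    rw [map_mul] at h2
    have : (1 : V.ValueGroup) ≤ V.valuation (β / s - 1) * V.valuation (β / s + 1) :=
      one_le_mul_of_one_le_of_one_le hc.1 hc.2
    exact absurd h2 (not_lt.2 this)
  have h4 : ∃ ε : ℤ, (ε = 1 ∨ ε = -1) ∧ V.valuation (β / s - ε) < 1 := by
    rcases h3 with h | h
    · exact ⟨1, Or.inl rfl, by simpa using h⟩
    · exact ⟨-1, Or.inr rfl, by simpa using h⟩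
  obtain ⟨ε, hε, hδ⟩ := h4
  have hε2 : (ε : Ω) ^ 2 = 1 := by
    rcases hε with rfl | rfl <;> simp
  refine ⟨ε, hε, x * (β / s) - (x * ε - ε * θ / 2), ?_, by ring⟩
  obtain ⟨δ, hδe⟩ : ∃ δ, δ = β / s - ε := ⟨_, rfl⟩
  rw [← hδe] at hδ
  have hr : β / s = ε + δ := by rw [hδe]; ring
  have h2k : (2 : Ω) ∈ k := by
    have : ((2 : ℕ) : Ω) ∈ k := natCast_mem k 2
    simpa using this
  have hεk : (ε : Ω) ∈ k := intCast_mem k ε
  -- the unit
  have hu : (2 * ε + δ : Ω)⁻¹ ∈ V := by
    have h20 : (2 * ε : Ω) ≠ 0 := by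
      intro h
      have h5 : (2 * (ε : Ω)) ^ 2 = 4 := by rw [mul_pow, hε2]; norm_num
      rw [h] at h5
      norm_num at h5
    have h5 : V.valuation (2 * ε : Ω) = 1 := by
      have ha : (2 * ε : Ω) ∈ k := mul_mem h2k hεk
      have hb1 := (V.valuation_le_one_iff _).2 (hk _ ha)
      refine le_antisymm hb1 ?_
      by_contra hc
      rw [not_le] at hc
      have : (2 * ε : Ω) ∈ algebraicClosure k Ω :=
        (algebraicClosure k Ω).algebraMap_mem ⟨_, ha⟩
      exact h20 (alg_zero V k hk this hc)
    have h6 : V.valuation (2 * ε + δ : Ω) = 1 := by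
      rw [← h5]
      apply Valuation.map_add_eq_of_lt_left
      rwa [h5]
    apply (V.valuation_le_one_iff _).1
    rw [map_inv₀, h6, inv_one]
  have hu0 : (2 * ε + δ : Ω) ≠ 0 := by
    intro h
    have h7 : δ = -(2 * ε) := by linear_combination h
    rw [h7] at hδ
    have ha : (-(2 * ε) : Ω) ∈ algebraicClosure k Ω :=
      (algebraicClosure k Ω).algebraMap_mem ⟨_, neg_mem (mul_mem h2k hεk)⟩
    have h8 := alg_zero V k hk ha hδ
    have h9 : (ε : Ω) = 0 := by
      have : (2 : Ω) * ε = 0 := neg_eq_zero.1 h8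
      rcases mul_eq_zero.1 this with h | h
      · norm_num at h
      · exact h
    rw [h9] at hε2
    norm_num at hε2
  have key : x * (β / s) - (x * ε - ε * θ / 2) = δ * (θ * (ε / 2) * (2 * ε + δ : Ω)⁻¹) := by
    have h10 : δ * (2 * ε + δ) = -(x⁻¹ * θ) := by
      rw [← h1, hr]
      linear_combination -hε2
    have h11 : x * δ = -θ * (2 * ε + δ : Ω)⁻¹ := by
      have h13 : x * (δ * (2 * ε + δ)) = -θ := by
        rw [h10]
        field_simp
      field_simp
      linear_combination h13
    rw [hr]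
    have h12 : x * (ε + δ) - (x * ε - ε * θ / 2) = x * δ + ε * θ / 2 := by ring
    rw [h12, h11]
    field_simp
    linear_combination (2 * θ) * hε2
  rw [key]
  apply m_mul V hδ
  refine V.mul_mem _ _ (V.mul_mem _ _ hθV (hk _ (div_mem hεk h2k))) hu

/-- the core -/
theorem core [CharZero Ω] {ι : Type*} [Fintype ι] [Nontrivial ι]
    (hk : ∀ z ∈ k, z ∈ V) (R : Subring Ω) (hkR : ∀ z ∈ k, z ∈ R)
    (hR : ∀ z ∈ R, z ∈ V → z ∈ k) {x s b : Ω} (hb : b ∈ k) (hb0 : b ≠ 0) (hxR : x ∈ R)
    (hx : x ∉ V) (hs : s ^ 2 = b * x) (θ β : ι → Ω) (hθi : Function.Injective θ)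
    (hθ : ∀ i, θ i ∈ algebraicClosure k Ω) (hβ : ∀ i, β i ^ 2 = b * (x - θ i))
    (hS : ∀ j : ℕ, ∑ i, θ i ^ j * β i ∈ R) : False := by
  classical
  have hx0 : x ≠ 0 := fun h => hx (h ▸ V.zero_mem)
  have hs0 : s ≠ 0 := by
    rintro rfl
    rw [zero_pow two_ne_zero] at hs
    exact mul_ne_zero hb0 hx0 hs.symm
  have hxm : V.valuation x⁻¹ < 1 := by
    rw [map_inv₀]
    have h1 : 1 < V.valuation x := by
      rw [← not_le]
      exact fun h => hx ((V.valuation_le_one_iff _).1 h)
    exact inv_lt_one_of_one_lt₀ h1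
  have hbV := hk b hb
  -- s / x is in the maximal ideal
  have hsx : V.valuation (s / x) < 1 := by
    have h1 : V.valuation ((s / x) * (s / x)) < 1 := by
      have : (s / x) * (s / x) = x⁻¹ * b := by
        field_simp
        linear_combination hs
      rw [this]
      exact m_mul V hxm hbV
    by_contra hc
    rw [not_lt] at hc
    rw [map_mul] at h1
    exact absurd h1 (not_lt.2 (one_le_mul_of_one_le_of_one_le hc hc))
  choose ε hε μ hμ hβμ using fun i => one_root V k hk hb hb0 hx hs (hθ i) (hβ i)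
  have h2k : (2 : Ω) ∈ k := by
    have : ((2 : ℕ) : Ω) ∈ k := natCast_mem k 2
    simpa using this
  obtain ⟨e, he⟩ : ∃ e : ℕ → Ω, ∀ j, e j = ∑ i, (ε i : Ω) * θ i ^ j := ⟨_, fun _ => rfl⟩
  obtain ⟨M, hM⟩ : ∃ M : ℕ → Ω, ∀ j, M j = ∑ i, θ i ^ j * μ i := ⟨_, fun _ => rfl⟩
  obtain ⟨S, hSd⟩ : ∃ S : ℕ → Ω, ∀ j, S j = ∑ i, θ i ^ j * β i := ⟨_, fun _ => rfl⟩
  have hSR : ∀ j, S j ∈ R := fun j => by rw [hSd]; exact hS j
  have hMm : ∀ j, V.valuation (M j) < 1 := by
    intro j
    rw [hM]
    apply m_sum
    intro i _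
    rw [mul_comm]
    exact m_mul V (hμ i) (pow_mem (alg_mem V k hk (hθ i)) j)
  have hea : ∀ j, e j ∈ algebraicClosure k Ω := by
    intro j
    rw [he]
    exact sum_mem fun i _ => mul_mem (intCast_mem _ _) (pow_mem (hθ i) j)
  have hSe : ∀ j, S j = (s / x) * (x * e j - e (j + 1) / 2 + M j) := by
    intro j
    rw [hSd, he, he, hM, Finset.mul_sum, Finset.sum_div, ← Finset.sum_sub_distrib,
      ← Finset.sum_add_distrib, Finset.mul_sum]
    refine Finset.sum_congr rfl fun i _ => ?_
    have h1 := hβμ i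
    have h2 : β i = (s / x) * (x * (ε i : Ω) - ε i * θ i / 2 + μ i) := by
      rw [← h1]
      field_simp
    rw [h2]
    ring
  have hin : ∀ z : Ω, z ∈ R → V.valuation z < 1 → z = 0 := by
    intro z hz hz1
    exact alg_zero V k hk ((algebraicClosure k Ω).algebraMap_mem ⟨z, hR z hz (m_mem V hz1)⟩) hz1
  have h2a : (2 : Ω) ∈ algebraicClosure k Ω := (algebraicClosure k Ω).algebraMap_mem ⟨2, h2k⟩
  have he0k : e 0 ∈ k := by
    rw [he]
    exact sum_mem fun i _ => by simpa using intCast_mem k (ε i)
  have heV : ∀ j, e j ∈ V := fun j => alg_mem V k hk (hea j)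
  -- geometric progression
  have hgeo : ∃ l : Ω, ∀ j, e j = e 0 * l ^ j := by
    by_cases he0 : e 0 = 0
    · refine ⟨0, ?_⟩
      intro j
      rw [he0, zero_mul]
      induction j with
      | zero => exact he0
      | succ j ih =>
        have h1 := hSe j
        rw [ih, mul_zero, zero_sub] at h1
        have h2 : V.valuation (S j) < 1 := by
          rw [h1]
          apply m_mul V hsx
          refine V.add_mem _ _ (V.neg_mem _ ?_) (m_mem V (hMm j))
          rw [div_eq_mul_inv]
          exact V.mul_mem _ _ (heV _) (hk _ (inv_mem h2k))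
        have h3 := hin _ (hSR j) h2
        rw [h3] at h1
        have h4 : -(e (j + 1) / 2) + M j = 0 := by
          rcases mul_eq_zero.1 h1.symm with h | h
          · exact absurd h (div_ne_zero hs0 hx0)
          · exact h
        have h5 : e (j + 1) = M j * 2 := by linear_combination -2 * h4
        apply alg_zero V k hk (hea _)
        rw [h5]
        exact m_mul V (hMm j) (hk _ h2k)
    · -- the first relation
      have hc : S 0 ^ 2 - b * x * e 0 ^ 2 + b * e 0 * e 1 =
          M 0 * (2 * b * e 0) + x⁻¹ * (b * (M 0 - e 1 / 2) ^ 2) := by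
        have h1 := hSe 0
        rw [zero_add] at h1
        have h2 : (s / x) ^ 2 = b / x := by
          field_simp
          linear_combination hs
        rw [h1, mul_pow, h2]
        field_simp
        ring
      have h12 : (e 1 / 2) ∈ V := by
        rw [div_eq_mul_inv]
        exact V.mul_mem _ _ (heV _) (hk _ (inv_mem h2k))
      have hcm : V.valuation (S 0 ^ 2 - b * x * e 0 ^ 2 + b * e 0 * e 1) < 1 := by
        rw [hc]
        apply m_add V
        · apply m_mul V (hMm 0)
          exact hk _ (mul_mem (mul_mem h2k hb) he0k)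
        · apply m_mul V hxm
          refine V.mul_mem _ _ hbV (pow_mem (V.sub_mem (m_mem V (hMm 0)) h12) 2)
      have hck : S 0 ^ 2 - b * x * e 0 ^ 2 ∈ k := by
        apply hR
        · exact sub_mem (pow_mem (hSR 0) 2)
            (mul_mem (mul_mem (hkR _ hb) hxR) (pow_mem (hkR _ he0k) 2))
        · have h3 : S 0 ^ 2 - b * x * e 0 ^ 2 = (S 0 ^ 2 - b * x * e 0 ^ 2 + b * e 0 * e 1)
              - b * e 0 * e 1 := by ring
          rw [h3]
          exact V.sub_mem (m_mem V hcm) (V.mul_mem _ _ (V.mul_mem _ _ hbV (heV 0)) (heV 1))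
      have hc0 : S 0 ^ 2 - b * x * e 0 ^ 2 + b * e 0 * e 1 = 0 := by
        apply alg_zero V k hk _ hcm
        refine add_mem ((algebraicClosure k Ω).algebraMap_mem ⟨_, hck⟩) (mul_mem
          (mul_mem ((algebraicClosure k Ω).algebraMap_mem ⟨_, hb⟩) (hea 0)) (hea 1))
      have he1 : e 1 ∈ k := by
        have h4 : e 1 = -(S 0 ^ 2 - b * x * e 0 ^ 2) / (b * e 0) := by
          field_simp
          linear_combination hc0
        rw [h4]
        exact div_mem (neg_mem hck) (mul_mem hb he0k)
      have hall : ∀ j, e j ∈ k ∧ e 0 * e (j + 1) = e j * e 1 := by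
        intro j
        have step : ∀ j, e j ∈ k → e 0 * e (j + 1) = e j * e 1 := by
          intro j hj
          have h5 : e j * S 0 - e 0 * S j = (s / x) *
              (-((e j * e 1 - e 0 * e (j + 1)) / 2) + (e j * M 0 - e 0 * M j)) := by
            rw [hSe 0, hSe j, zero_add]
            ring
          have hD : e j * e 1 - e 0 * e (j + 1) ∈ algebraicClosure k Ω :=
            sub_mem (mul_mem (hea _) (hea _)) (mul_mem (hea _) (hea _))
          have hMM : V.valuation (e j * M 0 - e 0 * M j) < 1 := by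
            apply m_sub V
            · rw [mul_comm]; exact m_mul V (hMm 0) (heV _)
            · rw [mul_comm]; exact m_mul V (hMm j) (heV _)
          have h6 : V.valuation (e j * S 0 - e 0 * S j) < 1 := by
            rw [h5]
            apply m_mul V hsx
            refine V.add_mem _ _ (V.neg_mem _ ?_) (m_mem V hMM)
            rw [div_eq_mul_inv]
            exact V.mul_mem _ _ (alg_mem V k hk hD) (hk _ (inv_mem h2k))
          have h7 := hin _ (sub_mem (mul_mem (hkR _ hj) (hSR 0))
            (mul_mem (hkR _ he0k) (hSR j))) h6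
          rw [h7] at h5
          have h8 : -((e j * e 1 - e 0 * e (j + 1)) / 2) + (e j * M 0 - e 0 * M j) = 0 := by
            rcases mul_eq_zero.1 h5.symm with h | h
            · exact absurd h (div_ne_zero hs0 hx0)
            · exact h
          have h9 : e j * e 1 - e 0 * e (j + 1) = (e j * M 0 - e 0 * M j) * 2 := by
            linear_combination -2 * h8
          have h10 : e j * e 1 - e 0 * e (j + 1) = 0 := by
            apply alg_zero V k hk hD
            rw [h9]
            exact m_mul V hMM (hk _ h2k)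
          linear_combination -h10
        induction j with
        | zero => exact ⟨he0k, step 0 he0k⟩
        | succ j ih =>
          have h11 : e (j + 1) ∈ k := by
            have h12 : e (j + 1) = e j * e 1 / e 0 := by
              field_simp
              linear_combination ih.2
            rw [h12]
            exact div_mem (mul_mem ih.1 he1) he0k
          exact ⟨h11, step _ h11⟩
      refine ⟨e 1 / e 0, fun j => ?_⟩
      induction j with
      | zero => simp
      | succ j ih =>
        have h13 := (hall j).2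
        have h14 : e (j + 1) = e j * (e 1 / e 0) := by
          field_simp
          linear_combination h13
        rw [h14, ih, pow_succ]
        ring
  obtain ⟨l, hl⟩ := hgeo
  have hpoly : ∀ P : Polynomial Ω, ∑ i, (ε i : Ω) * P.eval (θ i) = e 0 * P.eval l := by
    intro P
    simp only [eval_eq_sum_range, Finset.mul_sum]
    rw [Finset.sum_comm]
    refine Finset.sum_congr rfl fun j _ => ?_
    have h1 := hl j
    rw [he] at h1
    have h2 : ∑ i, (ε i : Ω) * (P.coeff j * θ i ^ j) = P.coeff j * ∑ i, (ε i : Ω) * θ i ^ j := by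
      rw [Finset.mul_sum]
      refine Finset.sum_congr rfl fun i _ => by ring
    rw [h2, h1]
    ring
  have hall : ∀ i0 : ι, θ i0 = l := by
    intro i0
    have h1 := hpoly ((X - C l) * ∏ i ∈ Finset.univ.erase i0, (X - C (θ i)))
    rw [Finset.sum_eq_single i0] at h1
    · simp only [eval_mul, eval_sub, eval_X, eval_C, sub_self, zero_mul, mul_zero,
        eval_prod] at h1
      rcases mul_eq_zero.1 h1 with h | h
      · exfalso
        rcases hε i0 with h2 | h2 <;> rw [h2] at h <;> norm_num at h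
      · rcases mul_eq_zero.1 h with h | h
        · exact sub_eq_zero.1 h
        · exfalso
          rw [Finset.prod_eq_zero_iff] at h
          obtain ⟨i, hi, h3⟩ := h
          exact (Finset.mem_erase.1 hi).1 (hθi (sub_eq_zero.1 h3)).symm
    · intro i _ hi
      have : eval (θ i) (∏ i ∈ Finset.univ.erase i0, (X - C (θ i))) = 0 := by
        rw [eval_prod]
        exact Finset.prod_eq_zero (Finset.mem_erase.2 ⟨hi, Finset.mem_univ i⟩) (by simp)
      rw [eval_mul, this, mul_zero, mul_zero]
    · intro h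
      exact absurd (Finset.mem_univ i0) h
  obtain ⟨i, j, hij⟩ := exists_pair_ne ι
  exact hij (hθi ((hall i).trans (hall j).symm))

end core

end Pool.Agent.Y910.R
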