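import Mathlib

/-!
Traces.
-/

open Polynomial

set_option autoImplicit false

namespace Pool.Agent.Y910.R

lemma trace_rat_aux (g : ℚ[X]) (hg : g.Separable) (P : ℚ[X]) (E : Type) [Field E] [Algebra ℚ E]
    [g.IsSplittingField ℚ E] [FiniteDimensional ℚ E] :
    ∃ q : ℚ, ∑ r ∈ (g.map (algebraMap ℚ ℂ)).roots.toFinset, (P.map (algebraMap ℚ ℂ)).eval r
      = (q : ℂ) := by
  classical
  have hE : IsGalois ℚ E := IsGalois.of_separable_splitting_field hg
  let φ : E →ₐ[ℚ] ℂ := IsAlgClosed.lift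
  have hsp : (g.map (algebraMap ℚ E)).Splits := IsSplittingField.splits E g
  have h1 : ∀ σ : E ≃ₐ[ℚ] E, σ (∑ r ∈ (g.map (algebraMap ℚ E)).roots.toFinset,
      (P.map (algebraMap ℚ E)).eval r) = ∑ r ∈ (g.map (algebraMap ℚ E)).roots.toFinset,
      (P.map (algebraMap ℚ E)).eval r := by
    intro σ
    rw [map_sum]
    refine Finset.sum_equiv σ.toEquiv ?_ ?_
    · intro r
      have hg0 : g.map (algebraMap ℚ E) ≠ 0 := (Polynomial.map_ne_zero hg.ne_zero)
      rw [Multiset.mem_toFinset, Multiset.mem_toFinset, mem_roots hg0, mem_roots hg0, IsRoot.def,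
        IsRoot.def, eval_map_algebraMap, eval_map_algebraMap]
      change _ ↔ aeval (σ r) g = 0
      have h5 : aeval (σ r) g = σ (aeval r g) := by
        have := aeval_algHom_apply σ.toAlgHom r g
        exact this
      rw [h5]
      constructor
      · intro h; rw [h, map_zero]
      · intro h; exact σ.injective (h.trans (map_zero σ).symm)
    · intro r _
      change σ _ = eval (σ r) _
      rw [eval_map_algebraMap, eval_map_algebraMap]
      exact (aeval_algHom_apply σ.toAlgHom r P).symm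
  obtain ⟨q, hq⟩ := (IsGalois.mem_range_algebraMap_iff_fixed _).2 h1
  refine ⟨q, ?_⟩
  have h2 : g.map (algebraMap ℚ ℂ) = (g.map (algebraMap ℚ E)).map φ.toRingHom := by
    rw [Polynomial.map_map]
    congr 1
    exact (φ.comp_algebraMap).symm
  have h3 : (g.map (algebraMap ℚ ℂ)).roots.toFinset
      = (g.map (algebraMap ℚ E)).roots.toFinset.image φ := by
    rw [h2, hsp.roots_map]
    ext z
    simp
  rw [h3, Finset.sum_image (f := fun r => eval r (map (algebraMap ℚ ℂ) P)) (g := φ)
    (fun a _ b _ h => φ.toRingHom.injective h)]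
  have h4 : ∀ r : E, (P.map (algebraMap ℚ ℂ)).eval (φ r) = φ ((P.map (algebraMap ℚ E)).eval r) := by
    intro r
    rw [eval_map_algebraMap, eval_map_algebraMap, aeval_algHom_apply]
  simp only [h4]
  rw [← map_sum, ← hq]
  simp

/-- the sum of the values of a rational polynomial at the roots of a rational polynomial is
rational -/
lemma trace_rat (g : ℚ[X]) (hg : g.Separable) (P : ℚ[X]) :
    ∃ q : ℚ, ∑ r ∈ (g.map (algebraMap ℚ ℂ)).roots.toFinset, (P.map (algebraMap ℚ ℂ)).eval r
      = (q : ℂ) :=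
  @trace_rat_aux g hg P g.SplittingField _ _ (IsSplittingField.splittingField g) _

/-- the traces are rational with bounded denominators -/
lemma trace_int (g : ℤ[X]) (hg : (g.map (Int.castRingHom ℚ)).Separable) (b x : ℤ) (B : ℚ[X])
    (hB : g.map (Int.castRingHom ℚ) ∣ B ^ 2 - C (b : ℚ) * (C (x : ℚ) - X)) (j : ℕ) :
    ∃ z : ℤ, (g.leadingCoeff : ℂ) ^ (j + 1) *
      ∑ r ∈ ((g.map (Int.castRingHom ℚ)).map (algebraMap ℚ ℂ)).roots.toFinset,
        r ^ j * (B.map (algebraMap ℚ ℂ)).eval r = (z : ℂ) := by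
  obtain ⟨q, hq⟩ := trace_rat _ hg (C ((g.leadingCoeff : ℚ) ^ (j + 1)) * (X ^ j * B))
  have h1 : (g.leadingCoeff : ℂ) ^ (j + 1) *
      ∑ r ∈ ((g.map (Int.castRingHom ℚ)).map (algebraMap ℚ ℂ)).roots.toFinset,
        r ^ j * (B.map (algebraMap ℚ ℂ)).eval r = (q : ℂ) := by
    rw [← hq, Finset.mul_sum]
    refine Finset.sum_congr rfl fun r _ => ?_
    simp
  rw [h1]
  have h2 : IsIntegral ℤ (q : ℂ) := by
    rw [← h1, Finset.mul_sum]
    apply IsIntegral.sum
    intro r hr
    have hr0 : aeval r g = 0 := by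
      rw [Multiset.mem_toFinset] at hr
      have h3 := (mem_roots'.1 hr).2
      rw [IsRoot.def, Polynomial.map_map, eval_map] at h3
      rw [aeval_def, ← h3]
      congr 1
    have hB0 : ((B.map (algebraMap ℚ ℂ)).eval r) ^ 2 = b * (x - r) := by
      obtain ⟨Q, hQ⟩ := hB
      have h3 := congrArg (fun P => (P.map (algebraMap ℚ ℂ)).eval r) hQ
      simp only [Polynomial.map_sub, Polynomial.map_pow, Polynomial.map_mul, Polynomial.map_C,
        Polynomial.map_X, eval_sub, eval_pow, eval_mul, eval_C, eval_X] at h3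
      rw [Multiset.mem_toFinset] at hr
      have h4 := (mem_roots'.1 hr).2
      rw [IsRoot.def] at h4
      rw [h4, zero_mul, sub_eq_zero] at h3
      rw [h3]
      simp
    have h5 : IsIntegral ℤ ((g.leadingCoeff : ℂ) * r) := by
      have := isIntegral_leadingCoeff_smul g r hr0
      rwa [zsmul_eq_mul] at this
    have h6 : IsIntegral ℤ ((g.leadingCoeff : ℂ) * (B.map (algebraMap ℚ ℂ)).eval r) := by
      apply IsIntegral.of_pow (n := 2) (by norm_num)
      rw [mul_pow, hB0]
      have h7 : (g.leadingCoeff : ℂ) ^ 2 * (b * (x - r)) =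
          (((g.leadingCoeff ^ 2 * b * x : ℤ) : ℂ)) - ((g.leadingCoeff * b : ℤ) : ℂ) *
            ((g.leadingCoeff : ℂ) * r) := by
        push_cast; ring
      rw [h7]
      exact (isIntegral_algebraMap (R := ℤ) (x := (g.leadingCoeff ^ 2 * b * x : ℤ))).sub
        ((isIntegral_algebraMap (R := ℤ) (x := (g.leadingCoeff * b : ℤ))).mul h5)
    have h8 : (g.leadingCoeff : ℂ) ^ (j + 1) * (r ^ j * (B.map (algebraMap ℚ ℂ)).eval r) =
        ((g.leadingCoeff : ℂ) * r) ^ j * ((g.leadingCoeff : ℂ) *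
          (B.map (algebraMap ℚ ℂ)).eval r) := by ring
    rw [h8]
    exact (h5.pow j).mul h6
  have h3 : IsIntegral ℤ q := by
    have h4 : IsIntegral ℤ (algebraMap ℚ ℂ q) := by simpa using h2
    exact (isIntegral_algebraMap_iff (algebraMap ℚ ℂ).injective).1 h4
  obtain ⟨z, hz⟩ := IsIntegrallyClosed.isIntegral_iff.1 h3
  refine ⟨z, ?_⟩
  rw [← hz]
  simp

end Pool.Agent.Y910.R
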