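import Pool.Agent.Y910.G.G2
import Pool.Agent.Y910.R.R1
import Pool.Agent.Y910.R.R2

/-!
Germs of sequences of complex numbers.
-/

open Polynomial Filter

set_option autoImplicit false

namespace Pool.Agent.Y910.R

open Pool.Agent.Y910.G

/-- the hyper-complex numbers -/
abbrev Oc : Type := Filter.Germ (Filter.hyperfilter ℕ : Filter ℕ) ℂ

/-- the class of a sequence -/
noncomputable def cc : (ℕ → ℂ) →+* Oc := Filter.Germ.coeRingHom _

lemma cc_eq {f g : ℕ → ℂ} : cc f = cc g ↔ Ev fun n => f n = g n := Filter.Germ.coe_eq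

lemma cc_surj (x : Oc) : ∃ f, cc f = x := by
  refine Filter.Germ.inductionOn x fun f => ⟨f, rfl⟩

lemma cc_eq_zero {f : ℕ → ℂ} : cc f = 0 ↔ Ev fun n => f n = 0 := by
  rw [← map_zero cc, cc_eq]; rfl

instance : CharZero Oc := by
  refine ⟨fun a b h => ?_⟩
  have h1 : ∀ a : ℕ, (a : Oc) = cc (fun _ => (a : ℂ)) := by
    intro a
    rw [← map_natCast cc]
    rfl
  simp only [h1, cc_eq] at h
  obtain ⟨n, hn⟩ := h.exists
  exact_mod_cast hn

lemma cc_inv (f : ℕ → ℂ) : (cc f)⁻¹ = cc (fun n => (f n)⁻¹) := rfl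

variable (S : Sca)

lemma one_le_T (n m : ℕ) : (1 : ℝ) ≤ (S.T n : ℝ) ^ m := by exact_mod_cast S.one_le n m

/-- germs of polynomially bounded sequences -/
noncomputable def VV : ValuationSubring Oc where
  carrier := {z | ∃ f, cc f = z ∧ ∃ m : ℕ, ∀ n, ‖f n‖ ≤ (S.T n : ℝ) ^ m}
  zero_mem' := ⟨0, map_zero _, 0, fun n => by simp⟩
  one_mem' := ⟨1, map_one _, 0, fun n => by simp⟩
  add_mem' := by
    rintro _ _ ⟨f, rfl, m, hm⟩ ⟨g, rfl, m', hm'⟩
    refine ⟨f + g, map_add _ _ _, m + m' + 1, fun n => ?_⟩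
    have hT : (2 : ℝ) ≤ S.T n := by exact_mod_cast S.hT n
    have h1 := one_le_T S n m
    have h2 := one_le_T S n m'
    calc ‖f n + g n‖ ≤ ‖f n‖ + ‖g n‖ := norm_add_le _ _
      _ ≤ (S.T n : ℝ) ^ m + (S.T n : ℝ) ^ m' := add_le_add (hm n) (hm' n)
      _ ≤ (S.T n : ℝ) ^ m * (S.T n : ℝ) ^ m' * 2 := by nlinarith
      _ ≤ (S.T n : ℝ) ^ m * (S.T n : ℝ) ^ m' * S.T n := by gcongr
      _ = (S.T n : ℝ) ^ (m + m' + 1) := by rw [pow_succ, pow_add]
  mul_mem' := by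
    rintro _ _ ⟨f, rfl, m, hm⟩ ⟨g, rfl, m', hm'⟩
    refine ⟨f * g, map_mul _ _ _, m + m', fun n => ?_⟩
    rw [Pi.mul_apply, norm_mul, pow_add]
    exact mul_le_mul (hm n) (hm' n) (norm_nonneg _) (by positivity)
  neg_mem' := by
    rintro _ ⟨f, rfl, m, hm⟩
    exact ⟨-f, map_neg _ _, m, fun n => by rw [Pi.neg_apply, norm_neg]; exact hm n⟩
  mem_or_inv_mem' := by
    intro z
    obtain ⟨f, rfl⟩ := cc_surj z
    have h : Ev fun n => ‖f n‖ ≤ 1 ∨ 1 < ‖f n‖ := Ev.of_forall fun n => le_or_gt _ _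
    rcases ev_or.1 h with h | h
    · left
      refine ⟨fun n => if ‖f n‖ ≤ 1 then f n else 0, ?_, 0, fun n => ?_⟩
      · rw [cc_eq]
        exact h.mono fun n hn => by simp [hn]
      · dsimp only
        split_ifs with h1
        · simpa using h1
        · simp
    · right
      refine ⟨fun n => if 1 < ‖f n‖ then (f n)⁻¹ else 0, ?_, 0, fun n => ?_⟩
      · rw [cc_inv, cc_eq]
        exact h.mono fun n hn => by simp [hn]
      · dsimp only
        split_ifs with h1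
        · rw [norm_inv, pow_zero]
          exact inv_le_one_of_one_le₀ h1.le
        · simp

lemma mem_VV {z : Oc} : z ∈ VV S ↔ ∃ f, cc f = z ∧ ∃ m : ℕ, ∀ n, ‖f n‖ ≤ (S.T n : ℝ) ^ m := Iff.rfl

/-- rational sequences -/
noncomputable def qc : (ℕ → ℚ) →+* Oc :=
  cc.comp (Pi.ringHom fun n => (algebraMap ℚ ℂ).comp (Pi.evalRingHom (fun _ : ℕ => ℚ) n))

lemma qc_apply (f : ℕ → ℚ) : qc f = cc (fun n => (f n : ℂ)) := rfl

/-- the field of germs of rational sequences of bounded height -/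
noncomputable def k0 : Subfield Oc where
  carrier := {x | ∃ f, S.Bdd f ∧ qc f = x}
  zero_mem' := ⟨0, S.KK.zero_mem, map_zero _⟩
  one_mem' := ⟨1, S.KK.one_mem, map_one _⟩
  add_mem' := by
    rintro _ _ ⟨f, hf, rfl⟩ ⟨g, hg, rfl⟩
    exact ⟨f + g, Sca.Bdd.add S hf hg, map_add _ _ _⟩
  mul_mem' := by
    rintro _ _ ⟨f, hf, rfl⟩ ⟨g, hg, rfl⟩
    exact ⟨f * g, Sca.Bdd.mul S hf hg, map_mul _ _ _⟩
  neg_mem' := by
    rintro _ ⟨f, hf, rfl⟩
    exact ⟨-f, Sca.Bdd.neg S hf, map_neg _ _⟩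
  inv_mem' := by
    rintro _ ⟨f, hf, rfl⟩
    refine ⟨f⁻¹, Sca.Bdd.inv S hf, ?_⟩
    rw [qc_apply, qc_apply, cc_inv]
    congr 1
    ext n
    simp

lemma mem_k0 {x : Oc} : x ∈ k0 S ↔ ∃ f, S.Bdd f ∧ qc f = x := Iff.rfl

lemma k0_le {z : Oc} (hz : z ∈ k0 S) : z ∈ VV S := by
  obtain ⟨f, ⟨m, hm⟩, rfl⟩ := hz
  refine ⟨_, rfl, m, fun n => ?_⟩
  obtain ⟨a, b, h1, h2, h3, h4⟩ := hm n
  change ‖((f n : ℚ) : ℂ)‖ ≤ _
  rw [h4]
  push_cast
  rw [norm_div, Complex.norm_natCast, Complex.norm_intCast]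
  have h5 : |(a : ℝ)| ≤ (S.T n : ℝ) ^ m := by exact_mod_cast h3
  have h6 : (1 : ℝ) ≤ b := by exact_mod_cast h1
  calc |(a : ℝ)| / b ≤ |(a : ℝ)| / 1 := by gcongr
    _ = |(a : ℝ)| := div_one _
    _ ≤ _ := h5

/-- germs of rational sequences with bounded denominators -/
noncomputable def R0 : Subring Oc where
  carrier := {z | ∃ a w : ℕ → ℤ, (∀ n, w n ≠ 0) ∧ (∃ m : ℕ, ∀ n, |w n| ≤ (S.T n : ℤ) ^ m) ∧
    z = qc (fun n => (a n : ℚ) / w n)}
  zero_mem' := ⟨0, 1, fun n => one_ne_zero, ⟨0, fun n => by simp⟩, by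
    rw [← map_zero qc]; congr 1; ext n; simp⟩
  one_mem' := ⟨1, 1, fun n => one_ne_zero, ⟨0, fun n => by simp⟩, by
    rw [← map_one qc]; congr 1; ext n; simp⟩
  add_mem' := by
    rintro _ _ ⟨a, w, hw, ⟨m, hm⟩, rfl⟩ ⟨a', w', hw', ⟨m', hm'⟩, rfl⟩
    refine ⟨a * w' + a' * w, w * w', fun n => mul_ne_zero (hw n) (hw' n), ⟨m + m', fun n => ?_⟩, ?_⟩
    · rw [Pi.mul_apply, abs_mul, pow_add]
      exact mul_le_mul (hm n) (hm' n) (abs_nonneg _) (by positivity)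
    · rw [← map_add]
      congr 1
      ext n
      have h1 : (w n : ℚ) ≠ 0 := by exact_mod_cast hw n
      have h2 : (w' n : ℚ) ≠ 0 := by exact_mod_cast hw' n
      simp only [Pi.add_apply, Pi.mul_apply]
      push_cast
      field_simp
  mul_mem' := by
    rintro _ _ ⟨a, w, hw, ⟨m, hm⟩, rfl⟩ ⟨a', w', hw', ⟨m', hm'⟩, rfl⟩
    refine ⟨a * a', w * w', fun n => mul_ne_zero (hw n) (hw' n), ⟨m + m', fun n => ?_⟩, ?_⟩
    · rw [Pi.mul_apply, abs_mul, pow_add]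
      exact mul_le_mul (hm n) (hm' n) (abs_nonneg _) (by positivity)
    · rw [← map_mul]
      congr 1
      ext n
      have h1 : (w n : ℚ) ≠ 0 := by exact_mod_cast hw n
      have h2 : (w' n : ℚ) ≠ 0 := by exact_mod_cast hw' n
      simp only [Pi.mul_apply]
      push_cast
      field_simp
  neg_mem' := by
    rintro _ ⟨a, w, hw, hm, rfl⟩
    refine ⟨-a, w, hw, hm, ?_⟩
    rw [← map_neg]
    congr 1
    ext n
    simp only [Pi.neg_apply]
    push_cast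
    ring

lemma mem_R0 {z : Oc} : z ∈ R0 S ↔ ∃ a w : ℕ → ℤ, (∀ n, w n ≠ 0) ∧
    (∃ m : ℕ, ∀ n, |w n| ≤ (S.T n : ℤ) ^ m) ∧ z = qc (fun n => (a n : ℚ) / w n) := Iff.rfl

lemma k0_le_R0 {z : Oc} (hz : z ∈ k0 S) : z ∈ R0 S := by
  obtain ⟨f, ⟨m, hm⟩, rfl⟩ := hz
  choose a b h1 h2 h3 h4 using hm
  refine ⟨a, fun n => b n, fun n => ?_, ⟨m, fun n => ?_⟩, ?_⟩
  · simpa using (h1 n).ne'
  · rw [Nat.abs_cast]; exact_mod_cast h2 n
  · congr 1
    ext n
    rw [h4 n]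
    simp

lemma R0_V {z : Oc} (hz : z ∈ R0 S) (hV : z ∈ VV S) : z ∈ k0 S := by
  obtain ⟨a, w, hw, ⟨m, hm⟩, rfl⟩ := hz
  obtain ⟨f, hf, m', hm'⟩ := hV
  rw [qc_apply, cc_eq] at hf
  classical
  -- the modified sequence
  refine ⟨fun n => if |a n| ≤ (S.T n : ℤ) ^ (m + m') then (a n : ℚ) / w n else 0, ⟨m + m',
    fun n => ?_⟩, ?_⟩
  · dsimp only
    split_ifs with h
    · rcases lt_or_gt_of_ne (hw n) with h0 | h0
      · refine ⟨-a n, (w n).natAbs, Int.natAbs_pos.2 (hw n), ?_, ?_, ?_⟩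
        · have h1 : ((w n).natAbs : ℤ) ≤ ((S.T n ^ (m + m') : ℕ) : ℤ) := by
            rw [Int.natCast_natAbs]
            refine (hm n).trans ?_
            push_cast
            rw [pow_add]
            have : (1 : ℤ) ≤ (S.T n : ℤ) ^ m' := by exact_mod_cast S.one_le n m'
            nlinarith [pow_nonneg (show (0 : ℤ) ≤ S.T n by positivity) m]
          exact_mod_cast h1
        · rw [abs_neg]; exact_mod_cast h
        · rw [Nat.cast_natAbs, abs_of_neg h0]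
          push_cast
          rw [neg_div_neg_eq]
      · refine ⟨a n, (w n).natAbs, Int.natAbs_pos.2 (hw n), ?_, ?_, ?_⟩
        · have h1 : ((w n).natAbs : ℤ) ≤ ((S.T n ^ (m + m') : ℕ) : ℤ) := by
            rw [Int.natCast_natAbs]
            refine (hm n).trans ?_
            push_cast
            rw [pow_add]
            have : (1 : ℤ) ≤ (S.T n : ℤ) ^ m' := by exact_mod_cast S.one_le n m'
            nlinarith [pow_nonneg (show (0 : ℤ) ≤ S.T n by positivity) m]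
          exact_mod_cast h1
        · exact_mod_cast h
        · rw [Nat.cast_natAbs, abs_of_pos h0]
    · exact Ht.zero (S.one_le n _)
  · rw [qc_apply, qc_apply, cc_eq]
    refine hf.mono fun n hn => ?_
    have h1 : |a n| ≤ (S.T n : ℤ) ^ (m + m') := by
      have h2 := hm' n
      rw [hn] at h2
      push_cast at h2
      rw [norm_div, Complex.norm_intCast, Complex.norm_intCast] at h2
      have h3 : (0 : ℝ) < |(w n : ℝ)| := by
        rw [abs_pos]; exact_mod_cast hw n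
      rw [div_le_iff₀ h3] at h2
      have h4 : |(w n : ℝ)| ≤ (S.T n : ℝ) ^ m := by exact_mod_cast hm n
      have h5 : |(a n : ℝ)| ≤ (S.T n : ℝ) ^ (m + m') := by
        rw [pow_add, mul_comm]
        exact h2.trans (by gcongr)
      exact_mod_cast h5
    rw [if_pos h1]

end Pool.Agent.Y910.R
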