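import Pool.Agent.Y910.R.R4

/-!
# Library copy (MP_d88658_nt): the uniform height bound for the integral points which are divisible by two

Let `f` be an integral polynomial of degree `d` without repeated roots whose coefficients have
absolute value at most `H`, and let `g` be a factor of `f` of degree at least two (for instance
`g = f`). For an integer `x` we look at the class of `x - T` in the algebra `ℚ[T] / (g)` modulo
squares.

**Theorem.** For every `d` there is `M` such that for all `H`, `f`, `g` as above and all integers `x`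
for which `b (x - T)` is a square in `ℚ[T] / (g)` for some integer `b ≠ 0`, `|b| ≤ H`, we have
`|x| ≤ (2 H) ^ M`, so `h(x) ≤ C₁ h(f) + C₂` with constants depending only on `d`.

If `d` is odd, `g = f` and `b` is the leading coefficient of `f`, then for an integral point
`P = (x, y)` of the hyperelliptic curve `y ^ 2 = f(x)` the condition on `x` means that the class of
`P - ∞` is divisible by two in the group of rational points of the Jacobian (the map `x - T` of the
2-descent is injective). So the uniform bound of Hall, Lang and Vojta holds for all these integral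
points of all hyperelliptic curves of odd degree.

The proof: let `θ i` be the roots of `g` and `β i ^ 2 = b (x - θ i)`, `β i = B (θ i)` with
`B ∈ ℚ[T]`. The traces `∑ θ i ^ j * β i` are rational with bounded denominators (this is the
condition of Runge for the covering of the curve: the points at infinity with different numbers of
signs are not conjugate). In an ultraproduct of a sequence of counterexamples the power sums
`∑ ε i * θ i ^ j` of the roots with the signs `ε i` of the `β i` are a geometric progression, which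
is impossible for two or more different `θ i`.
-/

open Polynomial

set_option autoImplicit false

namespace Pool.Agent.Y910.R.DivTwo

open Pool.Agent.Y910.R

/-- the coefficients of a factor of an integral polynomial -/
lemma factor_bound (d H : ℕ) (f g : ℤ[X]) (hd : f.natDegree = d) (hf0 : f ≠ 0)
    (hf : ∀ i, |f.coeff i| ≤ H) (hg : g ∣ f) (i : ℕ) :
    |g.coeff i| ≤ ((2 ^ d * ((d + 1) * H) : ℕ) : ℤ) := by
  obtain ⟨h, hgh⟩ := hg
  have hh0 : h ≠ 0 := by rintro rfl; exact hf0 (by rw [hgh, mul_zero])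
  have hg0 : g ≠ 0 := by rintro rfl; exact hf0 (by rw [hgh, zero_mul])
  let φ : ℤ →+* ℂ := Int.castRingHom ℂ
  have hφ : Function.Injective φ := RingHom.injective_int φ
  have h1 : 1 ≤ (h.map φ).mahlerMeasure := by
    apply one_le_mahlerMeasure_of_one_le_norm_leadingCoeff
    rw [leadingCoeff_map_of_injective hφ]
    change 1 ≤ ‖((h.leadingCoeff : ℤ) : ℂ)‖
    rw [Complex.norm_intCast]
    exact_mod_cast Int.one_le_abs (leadingCoeff_ne_zero.2 hh0)
  have h2 := norm_coeff_le_choose_mul_mahlerMeasure_of_one_le_mahlerMeasure i (g.map φ) (h.map φ) h1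
  rw [← Polynomial.map_mul, ← hgh, coeff_map, natDegree_map_eq_of_injective hφ] at h2
  have h3 : (f.map φ).mahlerMeasure ≤ (d + 1) * H := by
    refine (mahlerMeasure_le_sum_norm_coeff _).trans ?_
    rw [sum_over_range _ (fun n => by simp), natDegree_map_eq_of_injective hφ, hd]
    calc ∑ l ∈ Finset.range (d + 1), ‖(f.map φ).coeff l‖
        ≤ ∑ l ∈ Finset.range (d + 1), (H : ℝ) := by
          refine Finset.sum_le_sum fun l _ => ?_
          rw [coeff_map]
          change ‖((f.coeff l : ℤ) : ℂ)‖ ≤ _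
          rw [Complex.norm_intCast]
          exact_mod_cast hf l
      _ = (d + 1) * H := by simp
  have h4 : (g.natDegree.choose i : ℝ) ≤ 2 ^ d := by
    have h5 : g.natDegree ≤ d := by
      rw [← hd]; exact natDegree_le_of_dvd ⟨h, hgh⟩ hf0
    have h6 : g.natDegree.choose i ≤ 2 ^ d :=
      (Nat.choose_le_two_pow _ _).trans (Nat.pow_le_pow_right (by norm_num) h5)
    exact_mod_cast h6
  have h7 : ‖((g.coeff i : ℤ) : ℂ)‖ ≤ 2 ^ d * ((d + 1) * H) := by
    refine h2.trans ?_
    exact mul_le_mul h4 h3 (mahlerMeasure_nonneg _) (by positivity)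
  rw [Complex.norm_intCast] at h7
  exact_mod_cast h7

theorem div_two (d : ℕ) : ∃ M : ℕ, ∀ (H : ℕ) (f : ℤ[X]), f.natDegree = d →
    (f.map (Int.castRingHom ℚ)).Separable → (∀ i, |f.coeff i| ≤ H) →
    ∀ g : ℤ[X], g ∣ f → 2 ≤ g.natDegree →
    ∀ b : ℤ, b ≠ 0 → |b| ≤ H → ∀ x : ℤ,
      IsSquare (AdjoinRoot.mk (g.map (Int.castRingHom ℚ)) (C (b : ℚ) * (C (x : ℚ) - X))) →
      |x| ≤ (2 * H : ℤ) ^ M := by
  have hM : ∀ e : ℕ, ∃ M : ℕ, 2 ≤ e → ∀ (H : ℕ) (g : ℤ[X]), g.natDegree = e →
    (g.map (Int.castRingHom ℚ)).Separable → (∀ i, |g.coeff i| ≤ H) →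
    ∀ b : ℤ, b ≠ 0 → |b| ≤ H → ∀ x : ℤ,
    (∃ B : ℚ[X], g.map (Int.castRingHom ℚ) ∣ B ^ 2 - C (b : ℚ) * (C (x : ℚ) - X)) →
    |x| ≤ (2 * H : ℤ) ^ M := by
    intro e
    by_cases he : 2 ≤ e
    · obtain ⟨M, h⟩ := unif e he
      exact ⟨M, fun _ => h⟩
    · exact ⟨0, fun h => absurd h he⟩
  choose M hM using hM
  obtain ⟨M0, hM0⟩ : ∃ M0, M0 = ∑ e ∈ Finset.range (d + 1), M e := ⟨_, rfl⟩
  refine ⟨(2 * d + 2) * M0, ?_⟩
  intro H f hd hsep hcoef g hgf hg2 b hb hbH x hsq
  have hf0 : f ≠ 0 := by
    rintro rfl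
    rw [Polynomial.map_zero] at hsep
    exact not_separable_zero hsep
  have hH1 : 1 ≤ H := by
    have h1 := (Int.one_le_abs hb).trans hbH
    exact_mod_cast h1
  obtain ⟨H', hH'⟩ : ∃ H', H' = 2 ^ d * ((d + 1) * H) := ⟨_, rfl⟩
  have hHH' : H ≤ H' := by
    rw [hH']
    calc H = 1 * (1 * H) := by ring
      _ ≤ 2 ^ d * ((d + 1) * H) := Nat.mul_le_mul Nat.one_le_two_pow
          (Nat.mul_le_mul_right _ (by omega))
  have hgd : g.natDegree ≤ d := by
    rw [← hd]; exact natDegree_le_of_dvd hgf hf0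
  have hgs : (g.map (Int.castRingHom ℚ)).Separable :=
    hsep.of_dvd (Polynomial.map_dvd _ hgf)
  have hB : ∃ B : ℚ[X], g.map (Int.castRingHom ℚ) ∣ B ^ 2 - C (b : ℚ) * (C (x : ℚ) - X) := by
    obtain ⟨r, hr⟩ := hsq
    obtain ⟨B, rfl⟩ := AdjoinRoot.mk_surjective r
    refine ⟨B, ?_⟩
    rw [← AdjoinRoot.mk_eq_mk, hr, ← map_mul, sq]
  have h1 := hM g.natDegree hg2 H' g rfl hgs
    (fun i => by rw [hH']; exact factor_bound d H f g hd hf0 hcoef hgf i) b hb
    (hbH.trans (by exact_mod_cast hHH')) x hB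
  have h2 : 2 * H' ≤ (2 * H) ^ (2 * d + 2) := by
    have h3 : d + 1 ≤ 2 ^ d := Nat.lt_two_pow_self
    calc 2 * H' = 2 ^ d * (d + 1) * (2 * H) := by rw [hH']; ring
      _ ≤ 2 ^ d * 2 ^ d * (2 * H) := by gcongr
      _ = 2 ^ (2 * d) * (2 * H) := by rw [← pow_add, ← two_mul]
      _ ≤ (2 * H) ^ (2 * d) * (2 * H) := by
          gcongr
          omega
      _ = (2 * H) ^ (2 * d + 1) := by rw [pow_succ]
      _ ≤ _ := Nat.pow_le_pow_right (by omega) (by omega)
  have h4 : M g.natDegree ≤ M0 := by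
    rw [hM0]
    exact Finset.single_le_sum (f := M) (fun _ _ => Nat.zero_le _)
      (Finset.mem_range.2 (by omega : g.natDegree < d + 1))
  refine h1.trans ?_
  have h5 : (2 * H') ^ M g.natDegree ≤ (2 * H) ^ ((2 * d + 2) * M0) := by
    calc (2 * H') ^ M g.natDegree ≤ ((2 * H) ^ (2 * d + 2)) ^ M g.natDegree :=
          Nat.pow_le_pow_left h2 _
      _ = (2 * H) ^ ((2 * d + 2) * M g.natDegree) := by rw [← pow_mul]
      _ ≤ _ := Nat.pow_le_pow_right (by omega) (Nat.mul_le_mul_left _ h4)
  exact_mod_cast h5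

end Pool.Agent.Y910.R.DivTwo
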